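import Mathlib
import Pool.Agent.E8helper30.Prox.Minimal

/-!
# A system with the (asymptotic) average shadowing property, an invariant measure of full support
and a single minimal point

The space consists of all two-sided binary sequences such that for every `k` each window of length
`2 * 4 ^ k` contains a run of `k` zeros, and the map is the shift.
-/

set_option autoImplicit false

namespace Pool.Agent.Results.MP_9e49d7_an.SingleMinimalPointH30

open MeasureTheory Pool.Agent.E8helper30.Prox

theorem aux {Y : Type} [t : TopologicalSpace Y] [CompactSpace Y]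
    [TopologicalSpace.MetrizableSpace Y] [MeasurableSpace Y] [BorelSpace Y] (f : Y ≃ₜ Y)
    {c : Y → ℤ → Bool} (h : Coding (f : Y → Y) c) :
    ∃ (m : MetricSpace Y), m.toUniformSpace.toTopologicalSpace = t ∧
      AASP f ∧ ASP f ∧
      (∃ μ : Measure Y, IsProbabilityMeasure μ ∧ MeasurePreserving f μ μ ∧
        ∀ U : Set Y, IsOpen U → U.Nonempty → 0 < μ U) ∧
      (∃ p : Y, f p = p ∧ {x : Y | IsMinimalPoint f x} = {p}) ∧
      ¬ Dense {x : Y | IsMinimalPoint f x} := by
  obtain ⟨m, hm⟩ : ∃ m : MetricSpace Y, m.toUniformSpace.toTopologicalSpace = t :=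
    ⟨(TopologicalSpace.metrizableSpaceMetric Y).replaceTopology rfl, rfl⟩
  subst hm
  obtain ⟨o, ho⟩ := h.surj _ legal_zero
  obtain ⟨e, he⟩ := h.surj _ legal_single
  have : Nonempty Y := ⟨o⟩
  have hset : {x : Y | IsMinimalPoint f x} = {o} := by
    ext x
    exact h.isMinimalPoint_iff ho x
  refine ⟨m, rfl, h.aasp, h.asp, h.exists_full_support, ⟨o, h.fixed ho, hset⟩, ?_⟩
  rw [hset]
  intro hd
  have h1 : e ∈ closure ({o} : Set Y) := hd e
  rw [closure_singleton, Set.mem_singleton_iff] at h1
  have h2 := congrFun he 0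
  rw [h1, ho] at h2
  simp at h2

/-- There is a compact system, even one given by a homeomorphism, which has the asymptotic average
shadowing property, the average shadowing property and an invariant Borel probability measure of
full support, and which has exactly one minimal point, so that the minimal points are not dense. -/
theorem result : ∃ (X : Type) (_ : MetricSpace X) (_ : CompactSpace X) (_ : MeasurableSpace X)
    (_ : BorelSpace X) (f : X ≃ₜ X),
    AASP f ∧ ASP f ∧
    (∃ μ : Measure X, IsProbabilityMeasure μ ∧ MeasurePreserving f μ μ ∧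
      ∀ U : Set X, IsOpen U → U.Nonempty → 0 < μ U) ∧
    (∃ p : X, f p = p ∧ {x : X | IsMinimalPoint f x} = {p}) ∧
    ¬ Dense {x : X | IsMinimalPoint f x} := by
  have hsc : SecondCountableTopology LX := Topology.IsEmbedding.subtypeVal.secondCountableTopology
  have hmet : TopologicalSpace.MetrizableSpace LX :=
    TopologicalSpace.metrizableSpace_of_t3_secondCountable LX
  obtain ⟨m, hm, h⟩ := aux shiftLX codingLX
  have key : ∀ (t : TopologicalSpace LX) (m : MetricSpace LX)
      (_ : m.toUniformSpace.toTopologicalSpace = t) (_ : @CompactSpace LX t)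
      (b : MeasurableSpace LX) (_ : @BorelSpace LX t b) (f : @Homeomorph LX LX t t),
      AASP f ∧ ASP f ∧
      (∃ μ : @Measure LX b, IsProbabilityMeasure μ ∧ MeasurePreserving f μ μ ∧
        ∀ U : Set LX, @IsOpen LX t U → U.Nonempty → 0 < μ U) ∧
      (∃ p : LX, f p = p ∧ {x : LX | @IsMinimalPoint LX t f x} = {p}) ∧
      ¬ @Dense LX t {x : LX | @IsMinimalPoint LX t f x} →
      ∃ (X : Type) (_ : MetricSpace X) (_ : CompactSpace X) (_ : MeasurableSpace X)
      (_ : BorelSpace X) (f : X ≃ₜ X),
      AASP f ∧ ASP f ∧
      (∃ μ : Measure X, IsProbabilityMeasure μ ∧ MeasurePreserving f μ μ ∧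
        ∀ U : Set X, IsOpen U → U.Nonempty → 0 < μ U) ∧
      (∃ p : X, f p = p ∧ {x : X | IsMinimalPoint f x} = {p}) ∧
      ¬ Dense {x : X | IsMinimalPoint f x} := by
    rintro t m rfl h1 b h2 f h
    exact ⟨LX, m, h1, b, h2, f, h⟩
  exact key _ m hm inferInstance inferInstance inferInstance shiftLX h

end Pool.Agent.Results.MP_9e49d7_an.SingleMinimalPointH30
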